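import Mathlib

/-!
A Khinchin inequality (first versus second moment of Rademacher sums, with the constant 2/9)
proved through fourth moments.  Signs on a finite set `s` are encoded by subsets `A` of `s`.
-/

set_option autoImplicit false

namespace Pool.Agent.Helper38

variable {𝕜 : Type*} [RCLike 𝕜] {ι : Type*} [DecidableEq ι]

/-- The signed sum `∑_{i ∈ s} ± a_i`, with sign `+` exactly on `A`. -/
def signSum (s A : Finset ι) (a : ι → 𝕜) : 𝕜 := ∑ i ∈ s, if i ∈ A then a i else -a i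

lemma signSum_insert_of_notMem {s A : Finset ι} {a : ι → 𝕜} {j : ι} (hj : j ∉ s) (hA : j ∉ A) :
    signSum (insert j s) A a = signSum s A a - a j := by
  unfold signSum
  rw [Finset.sum_insert hj]
  simp [hA]
  ring

lemma signSum_insert_insert {s A : Finset ι} {a : ι → 𝕜} {j : ι} (hj : j ∉ s) :
    signSum (insert j s) (insert j A) a = signSum s A a + a j := by
  unfold signSum
  rw [Finset.sum_insert hj]
  have : ∑ i ∈ s, (if i ∈ insert j A then a i else -a i) = ∑ i ∈ s, (if i ∈ A then a i else -a i) := by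
    apply Finset.sum_congr rfl
    intro i hi
    have : i ≠ j := fun h => hj (h ▸ hi)
    simp [this]
  rw [this]
  simp
  ring

lemma two_point_sq (x y : 𝕜) : ‖x - y‖ ^ 2 + ‖x + y‖ ^ 2 = 2 * (‖x‖ ^ 2 + ‖y‖ ^ 2) := by
  have := parallelogram_law_with_norm 𝕜 x y
  linarith

lemma two_point_four (x y : 𝕜) :
    ‖x - y‖ ^ 4 + ‖x + y‖ ^ 4 ≤ 2 * ‖x‖ ^ 4 + 12 * ‖x‖ ^ 2 * ‖y‖ ^ 2 + 2 * ‖y‖ ^ 4 := by
  have h1 := two_point_sq x y
  have h2 : |‖x + y‖ ^ 2 - ‖x - y‖ ^ 2| ≤ 4 * (‖x‖ * ‖y‖) := by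
    rw [norm_add_sq (𝕜 := 𝕜) x y, norm_sub_sq (𝕜 := 𝕜) x y]
    have h3 : |RCLike.re (inner 𝕜 x y)| ≤ ‖x‖ * ‖y‖ :=
      (RCLike.abs_re_le_norm _).trans (norm_inner_le_norm x y)
    have h4 : ‖x‖ ^ 2 + 2 * RCLike.re (inner 𝕜 x y) + ‖y‖ ^ 2 -
        (‖x‖ ^ 2 - 2 * RCLike.re (inner 𝕜 x y) + ‖y‖ ^ 2) = 4 * RCLike.re (inner 𝕜 x y) := by ring
    rw [h4, abs_mul, abs_of_pos (by norm_num : (0 : ℝ) < 4)]
    linarith
  have h5 : (‖x + y‖ ^ 2 - ‖x - y‖ ^ 2) ^ 2 ≤ (4 * (‖x‖ * ‖y‖)) ^ 2 := sq_le_sq' (by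
    have := abs_le.mp h2; linarith) (by have := abs_le.mp h2; linarith)
  have h6 : (‖x - y‖ ^ 2 + ‖x + y‖ ^ 2) ^ 2 = (2 * (‖x‖ ^ 2 + ‖y‖ ^ 2)) ^ 2 := by rw [h1]
  nlinarith [h5, h6]

lemma second_moment (s : Finset ι) (a : ι → 𝕜) :
    ∑ A ∈ s.powerset, ‖signSum s A a‖ ^ 2 = 2 ^ s.card * ∑ i ∈ s, ‖a i‖ ^ 2 := by
  induction s using Finset.induction_on with
  | empty => simp [signSum]
  | insert j s hj ih =>
    rw [Finset.sum_powerset_insert hj]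
    rw [← Finset.sum_add_distrib]
    have : ∀ A ∈ s.powerset, ‖signSum (insert j s) A a‖ ^ 2 + ‖signSum (insert j s) (insert j A) a‖ ^ 2
        = 2 * ‖signSum s A a‖ ^ 2 + 2 * ‖a j‖ ^ 2 := by
      intro A hA
      have hjA : j ∉ A := fun h => hj (Finset.mem_powerset.mp hA h)
      rw [signSum_insert_of_notMem hj hjA, signSum_insert_insert hj, two_point_sq]
      ring
    rw [Finset.sum_congr rfl this, Finset.sum_add_distrib, ← Finset.mul_sum, ih,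
      Finset.sum_const, Finset.card_powerset, Finset.card_insert_of_notMem hj, Finset.sum_insert hj]
    simp only [nsmul_eq_mul]
    push_cast
    ring

lemma fourth_moment (s : Finset ι) (a : ι → 𝕜) :
    ∑ A ∈ s.powerset, ‖signSum s A a‖ ^ 4 ≤ 3 * 2 ^ s.card * (∑ i ∈ s, ‖a i‖ ^ 2) ^ 2 := by
  induction s using Finset.induction_on with
  | empty => simp [signSum]
  | insert j s hj ih =>
    rw [Finset.sum_powerset_insert hj, ← Finset.sum_add_distrib]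
    have h1 : ∀ A ∈ s.powerset, ‖signSum (insert j s) A a‖ ^ 4 + ‖signSum (insert j s) (insert j A) a‖ ^ 4
        ≤ 2 * ‖signSum s A a‖ ^ 4 + 12 * ‖a j‖ ^ 2 * ‖signSum s A a‖ ^ 2 + 2 * ‖a j‖ ^ 4 := by
      intro A hA
      have hjA : j ∉ A := fun h => hj (Finset.mem_powerset.mp hA h)
      rw [signSum_insert_of_notMem hj hjA, signSum_insert_insert hj]
      have := two_point_four (signSum s A a) (a j)
      linarith
    refine (Finset.sum_le_sum h1).trans ?_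
    rw [Finset.sum_add_distrib, Finset.sum_add_distrib, ← Finset.mul_sum, ← Finset.mul_sum,
      second_moment, Finset.sum_const, Finset.card_powerset, Finset.card_insert_of_notMem hj,
      Finset.sum_insert hj]
    simp only [nsmul_eq_mul]
    push_cast
    rw [pow_succ (2 : ℝ) s.card]
    set σ := ∑ i ∈ s, ‖a i‖ ^ 2 with hσ
    have hp : (0 : ℝ) < 2 ^ s.card := by positivity
    have h4 : 0 ≤ ‖a j‖ ^ 4 * 2 ^ s.card := by positivity
    nlinarith [ih, h4]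

/-- Khinchin: the average of `|∑ ± a_i|` over all signs is at least `(2/9) (∑ |a_i|²)^{1/2}`. -/
lemma khinchin (s : Finset ι) (a : ι → 𝕜) :
    (2 / 9 : ℝ) * 2 ^ s.card * √(∑ i ∈ s, ‖a i‖ ^ 2) ≤ ∑ A ∈ s.powerset, ‖signSum s A a‖ := by
  set σ := √(∑ i ∈ s, ‖a i‖ ^ 2) with hσ
  have hσ0 : 0 ≤ σ := Real.sqrt_nonneg _
  have hσ2 : σ ^ 2 = ∑ i ∈ s, ‖a i‖ ^ 2 := Real.sq_sqrt (by positivity)
  rcases hσ0.eq_or_lt with h0 | hpos
  · rw [← h0]
    simp only [mul_zero]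
    positivity
  have key : ∀ t : ℝ, 0 ≤ t → 9 * σ ^ 2 * t ^ 2 - t ^ 4 ≤ 27 * σ ^ 3 * t := by
    intro t ht
    have h1 : 0 ≤ 27 * σ ^ 3 - 9 * σ ^ 2 * t + t ^ 3 := by
      nlinarith [sq_nonneg (t - σ * 2), mul_nonneg ht hσ0, mul_nonneg hσ0 (sq_nonneg (t - 2 * σ)),
        mul_nonneg ht (sq_nonneg (t - 2 * σ)), mul_nonneg ht (sq_nonneg (t - σ)),
        mul_nonneg hσ0 (sq_nonneg (t - σ)), pow_pos hpos 3, pow_nonneg ht 3]
    nlinarith [mul_nonneg ht h1]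
  have h1 : ∑ A ∈ s.powerset, (9 * σ ^ 2 * ‖signSum s A a‖ ^ 2 - ‖signSum s A a‖ ^ 4) ≤
      ∑ A ∈ s.powerset, 27 * σ ^ 3 * ‖signSum s A a‖ :=
    Finset.sum_le_sum fun A _ => key _ (norm_nonneg _)
  rw [Finset.sum_sub_distrib, ← Finset.mul_sum, ← Finset.mul_sum, second_moment, ← hσ2] at h1
  have h2 := fourth_moment s a
  rw [← hσ2] at h2
  have h3 : 27 * σ ^ 3 * ((2 / 9 : ℝ) * 2 ^ s.card * σ) ≤
      27 * σ ^ 3 * ∑ A ∈ s.powerset, ‖signSum s A a‖ := by nlinarith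
  exact le_of_mul_le_mul_left h3 (by positivity)

end Pool.Agent.Helper38
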