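import Mathlib
import Pool.Agent.Helper38.Khinchin

/-! Auxiliary facts on `c₀` and on bilinear/multilinear forms on `c₀`. -/

set_option autoImplicit false

open scoped ENNReal NNReal ZeroAtInfty BoundedContinuousFunction

namespace Pool.Agent.Helper38

variable {𝕜 : Type*} [RCLike 𝕜]

lemma norm_apply_le (f : C₀(ℕ, 𝕜)) (r : ℕ) : ‖f r‖ ≤ ‖f‖ := by
  rw [← ZeroAtInftyContinuousMap.norm_toBCF_eq_norm]
  exact f.toBCF.norm_coe_le_norm r

lemma norm_le_of (f : C₀(ℕ, 𝕜)) {C : ℝ} (hC : 0 ≤ C) (h : ∀ r, ‖f r‖ ≤ C) : ‖f‖ ≤ C := by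
  rw [← ZeroAtInftyContinuousMap.norm_toBCF_eq_norm]
  exact (BoundedContinuousFunction.norm_le hC).2 h

lemma tendsto_cocompact_nat (f : ℕ → 𝕜) (hf : Filter.Tendsto f Filter.atTop (nhds 0)) :
    Filter.Tendsto f (Filter.cocompact ℕ) (nhds 0) := by
  rw [Filter.cocompact_eq_cofinite, Nat.cofinite_eq_atTop]
  exact hf

/-- an element of `c₀` from a null sequence -/
def mkC0 (f : ℕ → 𝕜) (hf : Filter.Tendsto f Filter.atTop (nhds 0)) : C₀(ℕ, 𝕜) where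
  toFun := f
  continuous_toFun := continuous_of_discreteTopology
  zero_at_infty' := tendsto_cocompact_nat f hf

@[simp] lemma mkC0_apply (f : ℕ → 𝕜) (hf : Filter.Tendsto f Filter.atTop (nhds 0)) (r : ℕ) :
    mkC0 f hf r = f r := rfl

lemma single_tendsto (k : ℕ) : Filter.Tendsto (fun r : ℕ => if r = k then (1 : 𝕜) else 0)
    Filter.atTop (nhds 0) := by
  apply tendsto_const_nhds.congr'
  filter_upwards [Filter.eventually_gt_atTop k] with r hr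
  simp [hr.ne']

/-- the unit vector `e_k` of `c₀` -/
def unitVec (𝕜 : Type*) [RCLike 𝕜] (k : ℕ) : C₀(ℕ, 𝕜) :=
  mkC0 (fun r => if r = k then 1 else 0) (single_tendsto k)

@[simp] lemma unitVec_apply (k r : ℕ) : unitVec 𝕜 k r = if r = k then 1 else 0 := rfl

/-- a combination of distinct unit vectors with coefficients of modulus at most one has norm at
most one -/
lemma norm_sum_unitVec_le (s : Finset ℕ) (c : ℕ → 𝕜) (hc : ∀ i, ‖c i‖ ≤ 1) :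
    ‖∑ k ∈ s, c k • unitVec 𝕜 k‖ ≤ 1 := by
  apply norm_le_of _ zero_le_one
  intro r
  have : (∑ k ∈ s, c k • unitVec 𝕜 k) r = ∑ k ∈ s, c k * (if r = k then 1 else 0) := by
    induction s using Finset.induction_on with
    | empty => simp
    | insert j s hj ih =>
      rw [Finset.sum_insert hj, Finset.sum_insert hj, ← ih]
      simp
  rw [this]
  simp only [mul_ite, mul_one, mul_zero, Finset.sum_ite_eq]
  split_ifs
  · exact hc r
  · simp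

lemma norm_unitVec_le (k : ℕ) : ‖unitVec 𝕜 k‖ ≤ 1 := by
  apply norm_le_of _ zero_le_one
  intro r
  rw [unitVec_apply]
  split_ifs <;> simp

/-- evaluation functional -/
noncomputable def evalC0 (𝕜 : Type*) [RCLike 𝕜] (r : ℕ) : C₀(ℕ, 𝕜) →L[𝕜] 𝕜 :=
  LinearMap.mkContinuous ⟨⟨fun f => f r, fun _ _ => rfl⟩, fun _ _ => rfl⟩ 1
    (fun f => by simpa using norm_apply_le f r)

lemma norm_evalC0_le (r : ℕ) : ‖evalC0 𝕜 r‖ ≤ 1 := LinearMap.mkContinuous_norm_le _ zero_le_one _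

@[simp] lemma evalC0_apply (r : ℕ) (f : C₀(ℕ, 𝕜)) : evalC0 𝕜 r f = f r := rfl

/-- a scalar of modulus one rotating `z` to its norm -/
lemma exists_rot (z : 𝕜) : ∃ θ : 𝕜, ‖θ‖ ≤ 1 ∧ θ * z = (‖z‖ : 𝕜) := by
  by_cases hz : z = 0
  · exact ⟨0, by simp, by simp [hz]⟩
  · refine ⟨(‖z‖ : 𝕜) / z, ?_, ?_⟩
    · rw [norm_div]
      simp [hz]
    · field_simp

/-- Littlewood type bound: for a separately linear scalar function `B` with `|B u v| ≤ 1` on the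
unit balls, `∑_{j,k<m} |B e_j e_k| ≤ (9/2) √m`. -/
lemma littlewood (B : C₀(ℕ, 𝕜) → C₀(ℕ, 𝕜) → 𝕜)
    (hl : ∀ v (s : Finset ℕ) (c : ℕ → 𝕜), B (∑ k ∈ s, c k • unitVec 𝕜 k) v =
      ∑ k ∈ s, c k * B (unitVec 𝕜 k) v)
    (hr : ∀ u (s : Finset ℕ) (c : ℕ → 𝕜), B u (∑ k ∈ s, c k • unitVec 𝕜 k) =
      ∑ k ∈ s, c k * B u (unitVec 𝕜 k))
    (hB : ∀ u v, ‖u‖ ≤ 1 → ‖v‖ ≤ 1 → ‖B u v‖ ≤ 1) (m : ℕ) :
    ∑ j ∈ Finset.range m, ∑ k ∈ Finset.range m, ‖B (unitVec 𝕜 j) (unitVec 𝕜 k)‖ ≤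
      9 / 2 * √m := by
  set s := Finset.range m with hs
  have h1 : ∀ A ∈ s.powerset, ∑ j ∈ s, ‖signSum s A (fun k => B (unitVec 𝕜 j) (unitVec 𝕜 k))‖ ≤ 1 := by
    intro A _
    set c : ℕ → 𝕜 := fun k => if k ∈ A then 1 else -1 with hc
    set v : C₀(ℕ, 𝕜) := ∑ k ∈ s, c k • unitVec 𝕜 k with hv
    have hcn : ∀ i, ‖c i‖ ≤ 1 := by
      intro i
      simp only [hc]
      split_ifs <;> simp
    have hvn : ‖v‖ ≤ 1 := norm_sum_unitVec_le s c hcn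
    have h2 : ∀ j, signSum s A (fun k => B (unitVec 𝕜 j) (unitVec 𝕜 k)) = B (unitVec 𝕜 j) v := by
      intro j
      rw [hv, hr]
      unfold signSum
      apply Finset.sum_congr rfl
      intro i _
      simp only [hc]
      split_ifs <;> simp
    simp only [h2]
    choose θ hθ1 hθ2 using fun j => exists_rot (B (unitVec 𝕜 j) v)
    have h3 : B (∑ k ∈ s, θ k • unitVec 𝕜 k) v = ((∑ j ∈ s, ‖B (unitVec 𝕜 j) v‖ : ℝ) : 𝕜) := by
      rw [hl]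
      push_cast
      exact Finset.sum_congr rfl fun j _ => hθ2 j
    have h4 := hB _ v (norm_sum_unitVec_le s θ hθ1) hvn
    rw [h3, RCLike.norm_ofReal, abs_of_nonneg (by positivity)] at h4
    exact h4
  set σ : ℕ → ℝ := fun j => √(∑ k ∈ s, ‖B (unitVec 𝕜 j) (unitVec 𝕜 k)‖ ^ 2) with hσ
  have h5 : (2 / 9 : ℝ) * 2 ^ s.card * ∑ j ∈ s, σ j ≤ 2 ^ s.card := by
    calc (2 / 9 : ℝ) * 2 ^ s.card * ∑ j ∈ s, σ j
        = ∑ j ∈ s, (2 / 9 : ℝ) * 2 ^ s.card * σ j := by rw [Finset.mul_sum]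
      _ ≤ ∑ j ∈ s, ∑ A ∈ s.powerset, ‖signSum s A (fun k => B (unitVec 𝕜 j) (unitVec 𝕜 k))‖ :=
          Finset.sum_le_sum fun j _ => khinchin s _
      _ = ∑ A ∈ s.powerset, ∑ j ∈ s, ‖signSum s A (fun k => B (unitVec 𝕜 j) (unitVec 𝕜 k))‖ :=
          Finset.sum_comm
      _ ≤ ∑ A ∈ s.powerset, (1 : ℝ) := Finset.sum_le_sum h1
      _ = 2 ^ s.card := by simp [Finset.card_powerset]
  have h6 : ∑ j ∈ s, σ j ≤ 9 / 2 := by
    have hp : (0 : ℝ) < 2 ^ s.card := by positivity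
    by_contra hcon
    push Not at hcon
    nlinarith
  have h7 : ∀ j ∈ s, ∑ k ∈ s, ‖B (unitVec 𝕜 j) (unitVec 𝕜 k)‖ ≤ √m * σ j := by
    intro j _
    have h8 := sq_sum_le_card_mul_sum_sq (s := s) (f := fun k => ‖B (unitVec 𝕜 j) (unitVec 𝕜 k)‖)
    rw [hσ, ← Real.sqrt_mul (Nat.cast_nonneg m)]
    apply Real.le_sqrt_of_sq_le
    simpa [hs] using h8
  calc ∑ j ∈ s, ∑ k ∈ s, ‖B (unitVec 𝕜 j) (unitVec 𝕜 k)‖ ≤ ∑ j ∈ s, √m * σ j :=
        Finset.sum_le_sum h7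
    _ = √m * ∑ j ∈ s, σ j := by rw [Finset.mul_sum]
    _ ≤ √m * (9 / 2) := mul_le_mul_of_nonneg_left h6 (Real.sqrt_nonneg _)
    _ = 9 / 2 * √m := by ring

end Pool.Agent.Helper38
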