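import Mathlib

/-!
Balls in the word metric of a finite group for a conjugation-closed set of involutions.
If `T` is such a set and `B_m = (insert 1 T)^m`, then
`(m+1) |B_{m+1}| ≤ (m+1) |B_m| + |T| |B_m|`.
-/

set_option autoImplicit false

open scoped Pointwise

namespace Pool.Agent.Helper38

variable {G : Type*} [Group G] [DecidableEq G]

/-- the ball of radius `m` -/
def wball (T : Finset G) (m : ℕ) : Finset G := (insert 1 T) ^ m

lemma wball_succ (T : Finset G) (m : ℕ) : wball T (m + 1) = wball T m * insert 1 T := by
  unfold wball
  rw [pow_succ]

lemma wball_subset_succ (T : Finset G) (m : ℕ) : wball T m ⊆ wball T (m + 1) := by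
  intro x hx
  rw [wball_succ]
  exact Finset.mem_mul.2 ⟨x, hx, 1, by simp, by simp⟩

lemma mul_mem_wball {T : Finset G} {m : ℕ} {x t : G} (hx : x ∈ wball T m) (ht : t ∈ T) :
    x * t ∈ wball T (m + 1) := by
  rw [wball_succ]
  exact Finset.mul_mem_mul hx (Finset.mem_insert_of_mem ht)

lemma one_mem_wball (T : Finset G) (m : ℕ) : (1 : G) ∈ wball T m := by
  unfold wball
  exact Finset.one_mem_pow (by simp)

/-- every element of length exactly `m+1` can be shortened by at least `m+1` elements of `T` -/
lemma card_descents {T : Finset G} (hinv : ∀ t ∈ T, t * t = 1)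
    (hconj : ∀ t ∈ T, ∀ s ∈ T, t * s * t ∈ T) (m : ℕ) :
    ∀ W ∈ wball T (m + 1), W ∉ wball T m →
      m + 1 ≤ (T.filter fun t => W * t ∈ wball T m).card := by
  induction m with
  | zero =>
    intro W hW hW0
    have h1 : W ∈ insert 1 T := by
      have := hW
      unfold wball at this
      simpa using this
    have h0 : W ≠ 1 := by
      rintro rfl
      exact hW0 (one_mem_wball T 0)
    have hWT : W ∈ T := by
      rcases Finset.mem_insert.1 h1 with h | h
      · exact absurd h h0
      · exact h
    have : W ∈ T.filter fun t => W * t ∈ wball T 0 := by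
      rw [Finset.mem_filter]
      refine ⟨hWT, ?_⟩
      rw [hinv W hWT]
      exact one_mem_wball T 0
    have := Finset.card_pos.2 ⟨W, this⟩
    omega
  | succ m ih =>
    intro W hW hWn
    rw [wball_succ] at hW
    obtain ⟨V, hV, t, ht, rfl⟩ := Finset.mem_mul.1 hW
    have ht1 : t ≠ 1 := by
      rintro rfl
      rw [mul_one] at hWn
      exact hWn hV
    have htT : t ∈ T := by
      rcases Finset.mem_insert.1 ht with h | h
      · exact absurd h ht1
      · exact h
    have htt := hinv t htT
    have hVn : V ∉ wball T m := fun h => hWn (mul_mem_wball h htT)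
    have hcard := ih V hV hVn
    -- the injection `s ↦ t s t`, together with `t` itself
    set D := T.filter fun s => V * s ∈ wball T m with hD
    have himg : (D.image fun s => t * s * t) ⊆
        (T.filter fun u => V * t * u ∈ wball T (m + 1)).erase t := by
      intro u hu
      obtain ⟨s, hs, rfl⟩ := Finset.mem_image.1 hu
      obtain ⟨hsT, hsV⟩ := Finset.mem_filter.1 hs
      rw [Finset.mem_erase, Finset.mem_filter]
      refine ⟨?_, hconj t htT s hsT, ?_⟩
      · intro h
        have h1 : s = t := by
          have h2 : t * s = 1 := by
            have := congrArg (· * t) h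
            simp only [mul_assoc, htt, mul_one] at this
            exact this
          have h3 : t * (t * s) = t := by rw [h2, mul_one]
          rwa [← mul_assoc, htt, one_mul] at h3
        subst h1
        exact hWn (wball_subset_succ T m hsV)
      · have : V * t * (t * s * t) = V * s * t := by
          calc V * t * (t * s * t) = V * (t * t) * s * t := by group
            _ = V * s * t := by rw [htt, mul_one]
        rw [this]
        exact mul_mem_wball hsV htT
    have hinj : Set.InjOn (fun s => t * s * t) (D : Set G) := by
      intro a _ b _ hab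
      simpa using hab
    have h1 : m + 1 ≤ ((T.filter fun u => V * t * u ∈ wball T (m + 1)).erase t).card := by
      calc m + 1 ≤ D.card := hcard
        _ = (D.image fun s => t * s * t).card := (Finset.card_image_of_injOn hinj).symm
        _ ≤ _ := Finset.card_le_card himg
    have h2 : t ∈ T.filter fun u => V * t * u ∈ wball T (m + 1) := by
      rw [Finset.mem_filter]
      refine ⟨htT, ?_⟩
      rw [mul_assoc, htt, mul_one]
      exact hV
    rw [Finset.card_erase_of_mem h2] at h1
    have := Finset.card_pos.2 ⟨t, h2⟩
    omega

/-- growth of balls is slow -/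
lemma card_wball_succ_le {T : Finset G} (hinv : ∀ t ∈ T, t * t = 1)
    (hconj : ∀ t ∈ T, ∀ s ∈ T, t * s * t ∈ T) (m : ℕ) :
    (m + 1) * (wball T (m + 1)).card ≤ (m + 1) * (wball T m).card + (wball T m).card * T.card := by
  set S := wball T (m + 1) \ wball T m with hS
  have hcard : (wball T (m + 1)).card = (wball T m).card + S.card := by
    rw [hS, Finset.card_sdiff_of_subset (wball_subset_succ T m)]
    have := Finset.card_le_card (wball_subset_succ T m)
    omega
  have h1 : (m + 1) * S.card ≤ (wball T m ×ˢ T).card := by
    calc (m + 1) * S.card = ∑ _W ∈ S, (m + 1) := by rw [Finset.sum_const, smul_eq_mul, mul_comm]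
      _ ≤ ∑ W ∈ S, (T.filter fun t => W * t ∈ wball T m).card := by
          apply Finset.sum_le_sum
          intro W hW
          rw [hS, Finset.mem_sdiff] at hW
          exact card_descents hinv hconj m W hW.1 hW.2
      _ = (S.sigma fun W => T.filter fun t => W * t ∈ wball T m).card := by
          rw [Finset.card_sigma]
      _ ≤ (wball T m ×ˢ T).card := by
          apply Finset.card_le_card_of_injOn (fun x => (x.1 * x.2, x.2))
          · intro x hx
            have hx' := Finset.mem_sigma.1 hx
            have hx2 := Finset.mem_filter.1 hx'.2
            exact Finset.mem_product.2 ⟨hx2.2, hx2.1⟩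
          · rintro ⟨W, t⟩ _ ⟨W', t'⟩ _ h
            simp only [Prod.mk.injEq] at h
            obtain ⟨h1, h2⟩ := h
            subst h2
            have : W = W' := by simpa using h1
            subst this
            rfl
  rw [Finset.card_product] at h1
  rw [hcard, mul_add]
  omega

end Pool.Agent.Helper38
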